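import Pool.Agent.WFR.Rk2

/-!
# Rank two: the two families
-/

set_option autoImplicit false

namespace Pool.Agent.WFR

open Pool.Agent.WFS

variable {k n : ℕ}

/-- a lattice point `a = A v`, `c v = 1`, with all columns on one side -/
theorem oneSide0 (hn : 1 ≤ n) (A : Matrix (Fin k) (Fin k) ℕ)
    (hr : (A.map (Nat.cast : ℕ → ℚ)).rank ≤ 2) (hse : SE A n) (c : Fin k → ℕ)
    (hc : ∀ j, ∑ i, c i * A i j = n * c j) (v : Fin k → ℤ) (hv : ∑ j, (c j : ℤ) * v j = 1)
    (hpos : ∀ i, 0 ≤ ∑ l, (A i l : ℤ) * v l) (lam : Fin k → ℤ)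
    (h0 : ∑ i, lam i * ∑ l, (A i l : ℤ) * v l = 0) (h1 : ∀ j, 0 ≤ ∑ i, lam i * (A i j : ℤ))
    (h2 : ∃ j, ∑ i, lam i * (A i j : ℤ) ≠ 0) :
    Sse ⟨k, A⟩ ⟨1, (Matrix.of (fun _ _ => n) : Matrix (Fin 1) (Fin 1) ℕ)⟩ := by
  obtain ⟨w, t, hw⟩ := fac_line hn hr c hc v hv
  let a : Fin k → ℕ := fun i => (∑ l, (A i l : ℤ) * v l).toNat
  have ha : ∀ i, (a i : ℤ) = ∑ l, (A i l : ℤ) * v l := fun i => Int.toNat_of_nonneg (hpos i)
  obtain ⟨q, hq⟩ : ∃ q, q = ∑ i, lam i * w i := ⟨_, rfl⟩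
  have hqt : ∀ j, ∑ i, lam i * (A i j : ℤ) = q * t j := by
    intro j
    have e1 : ∀ i, lam i * (A i j : ℤ) = (lam i * ∑ l, (A i l : ℤ) * v l) * c j +
        (lam i * w i) * t j := by
      intro i
      rw [hw i j]
      ring
    rw [Finset.sum_congr rfl fun i _ => e1 i, Finset.sum_add_distrib, ← Finset.sum_mul,
      ← Finset.sum_mul, h0, ← hq]
    ring
  obtain ⟨j0, hj0⟩ := h2
  rw [hqt] at hj0
  have hq0 : q ≠ 0 := fun h => hj0 (by rw [h, zero_mul])
  have ht0 : t j0 ≠ 0 := fun h => hj0 (by rw [h, mul_zero])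
  have hcaz : ∑ i, (c i : ℤ) * ∑ l, (A i l : ℤ) * v l = n := by
    have e1 : ∑ i, (c i : ℤ) * ∑ l, (A i l : ℤ) * v l = ∑ l, (∑ i, (c i : ℤ) * A i l) * v l := by
      simp_rw [Finset.mul_sum, Finset.sum_mul]
      rw [Finset.sum_comm]
      refine Finset.sum_congr rfl fun l _ => Finset.sum_congr rfl fun i _ => ?_
      ring
    rw [e1]
    have e2 : ∀ l, (∑ i, (c i : ℤ) * A i l) * v l = n * ((c l : ℤ) * v l) := by
      intro l
      have e3 : ((∑ i, c i * A i l : ℕ) : ℤ) = ((n * c l : ℕ) : ℤ) := by rw [hc l]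
      push_cast at e3
      rw [e3]
      ring
    rw [Finset.sum_congr rfl fun l _ => e2 l, ← Finset.mul_sum, hv, mul_one]
  have hcw : ∑ i, (c i : ℤ) * w i = 0 := by
    have e1 : (∑ i, (c i : ℤ) * w i) * t j0 = 0 := by
      have e2 : ((∑ i, c i * A i j0 : ℕ) : ℤ) = ((n * c j0 : ℕ) : ℤ) := by rw [hc j0]
      push_cast at e2
      have e3 : ∀ i, (c i : ℤ) * A i j0 = ((c i : ℤ) * ∑ l, (A i l : ℤ) * v l) * c j0 +
          ((c i : ℤ) * w i) * t j0 := by
        intro i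
        rw [hw i j0]
        ring
      rw [Finset.sum_congr rfl fun i _ => e3 i, Finset.sum_add_distrib, ← Finset.sum_mul,
        ← Finset.sum_mul, hcaz] at e2
      linarith
    rcases mul_eq_zero.1 e1 with h | h
    · exact h
    · exact absurd h ht0
  have hca : ∑ i, c i * a i = n := by
    have e1 : ((∑ i, c i * a i : ℕ) : ℤ) = (n : ℤ) := by
      push_cast
      rw [← hcaz]
      exact Finset.sum_congr rfl fun i _ => by rw [ha]
    exact_mod_cast e1
  rcases lt_or_gt_of_ne hq0 with hneg | hpos'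
  · have htn : ∀ j, t j ≤ 0 := by
      intro j
      have e1 := h1 j
      rw [hqt] at e1
      by_contra hcon
      push Not at hcon
      have := mul_neg_of_neg_of_pos hneg hcon
      linarith
    refine core hn A hse a c (fun j => (- t j).toNat) (fun i => - w i) (fun i j => ?_) hca ?_
    · rw [ha, hw i j, Int.toNat_of_nonneg (by have := htn j; linarith)]
      ring
    · have e1 : ∀ i, (c i : ℤ) * - w i = - ((c i : ℤ) * w i) := fun i => by ring
      rw [Finset.sum_congr rfl fun i _ => e1 i, Finset.sum_neg_distrib, hcw, neg_zero]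
  · have htn : ∀ j, 0 ≤ t j := by
      intro j
      have e1 := h1 j
      rw [hqt] at e1
      by_contra hcon
      push Not at hcon
      have := mul_neg_of_pos_of_neg hpos' hcon
      linarith
    refine core hn A hse a c (fun j => (t j).toNat) w (fun i j => ?_) hca hcw
    rw [ha, hw i j, Int.toNat_of_nonneg (htn j)]

/-- a lattice point `a = A v ≥ 0`, `c v = 1`, with all columns on one side (weak form) -/
theorem oneSide (hn : 1 ≤ n) (A : Matrix (Fin k) (Fin k) ℕ)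
    (hr : (A.map (Nat.cast : ℕ → ℚ)).rank ≤ 2) (hse : SE A n) (c : Fin k → ℕ)
    (hc : ∀ j, ∑ i, c i * A i j = n * c j) (v : Fin k → ℤ) (hv : ∑ j, (c j : ℤ) * v j = 1)
    (hpos : ∀ i, 0 ≤ ∑ l, (A i l : ℤ) * v l) (lam : Fin k → ℤ)
    (h0 : ∑ i, lam i * ∑ l, (A i l : ℤ) * v l = 0) (h1 : ∀ j, 0 ≤ ∑ i, lam i * (A i j : ℤ))
    (h2 : ∀ j, ∑ i, lam i * (A i j : ℤ) = 0 → ∀ i, (A i j : ℤ) = c j * ∑ l, (A i l : ℤ) * v l) :
    Sse ⟨k, A⟩ ⟨1, (Matrix.of (fun _ _ => n) : Matrix (Fin 1) (Fin 1) ℕ)⟩ := by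
  by_cases h3 : ∃ j, ∑ i, lam i * (A i j : ℤ) ≠ 0
  · exact oneSide0 hn A hr hse c hc v hv hpos lam h0 h1 h3
  · push Not at h3
    have ha : ∀ i, (((∑ l, (A i l : ℤ) * v l).toNat : ℕ) : ℤ) = ∑ l, (A i l : ℤ) * v l :=
      fun i => Int.toNat_of_nonneg (hpos i)
    have hcaz : ∑ i, (c i : ℤ) * ∑ l, (A i l : ℤ) * v l = n := by
      have e1 : ∑ i, (c i : ℤ) * ∑ l, (A i l : ℤ) * v l = ∑ l, (∑ i, (c i : ℤ) * A i l) * v l := by
        simp_rw [Finset.mul_sum, Finset.sum_mul]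
        rw [Finset.sum_comm]
        refine Finset.sum_congr rfl fun l _ => Finset.sum_congr rfl fun i _ => ?_
        ring
      rw [e1]
      have e2 : ∀ l, (∑ i, (c i : ℤ) * A i l) * v l = n * ((c l : ℤ) * v l) := by
        intro l
        have e3 : ((∑ i, c i * A i l : ℕ) : ℤ) = ((n * c l : ℕ) : ℤ) := by rw [hc l]
        push_cast at e3
        rw [e3]
        ring
      rw [Finset.sum_congr rfl fun l _ => e2 l, ← Finset.mul_sum, hv, mul_one]
    refine core hn A hse (fun i => (∑ l, (A i l : ℤ) * v l).toNat) c (fun _ => 0) (fun _ => 0)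
      (fun i j => ?_) ?_ (by simp)
    · rw [ha, h2 j (h3 j) i]
      ring
    · have e1 : ((∑ i, c i * (∑ l, (A i l : ℤ) * v l).toNat : ℕ) : ℤ) = (n : ℤ) := by
        push_cast
        rw [← hcaz]
        exact Finset.sum_congr rfl fun i _ => by rw [ha]
      exact_mod_cast e1

/-- constant column sums: the columns are `A_{j1} + x_j w`, `x ≥ 0` -/
theorem const_line (hn : 1 ≤ n) (A : Matrix (Fin k) (Fin k) ℕ)
    (hr : (A.map (Nat.cast : ℕ → ℚ)).rank ≤ 2) (hse : SE A n)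
    (hs : ∀ j j', ∑ i, A i j = ∑ i, A i j') :
    ∃ (w : Fin k → ℤ) (x : Fin k → ℕ) (j1 : Fin k),
      (∀ i j, (A i j : ℤ) = A i j1 + w i * x j) ∧ (∀ j, ∑ i, A i j = n) ∧ x j1 = 0 ∧
        ∑ i, w i = 0 := by
  obtain ⟨y, hy0, hy⟩ := ev_of_se hn A hse
  obtain ⟨j0, hj0⟩ : ∃ j, y j ≠ 0 := by
    by_contra h
    push Not at h
    exact hy0 (funext h)
  have hsum : ∀ j, ∑ i, A i j = n := by
    intro j
    have e1 : (∑ i, A i j) * ∑ l, y l = n * ∑ l, y l := by
      have e2 : ∀ i, ∑ l, A i l * y l = n * y i := fun i => congrFun hy i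
      rw [Finset.mul_sum Finset.univ y n, ← Finset.sum_congr rfl fun i _ => e2 i,
        Finset.sum_comm, Finset.mul_sum]
      refine Finset.sum_congr rfl fun l _ => ?_
      rw [hs j l, Finset.sum_mul]
    have e3 : 0 < ∑ l, y l :=
      lt_of_lt_of_le (Nat.pos_of_ne_zero hj0)
        (Finset.single_le_sum (f := y) (fun _ _ => Nat.zero_le _) (Finset.mem_univ j0))
    exact Nat.eq_of_mul_eq_mul_right e3 e1
  obtain ⟨w, t, hw⟩ := fac_line (c := fun _ => 1) hn hr (fun j => by simpa using hsum j)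
    (Pi.single j0 1) (by simp)
  have hsing : ∀ i, ∑ l, (A i l : ℤ) * (Pi.single j0 (1 : ℤ) : Fin k → ℤ) l = A i j0 := by
    intro i
    rw [Finset.sum_eq_single j0]
    · rw [Pi.single_eq_same, mul_one]
    · intro b _ hb
      rw [Pi.single_eq_of_ne hb, mul_zero]
    · intro h
      exact absurd (Finset.mem_univ _) h
  have hw' : ∀ i j, (A i j : ℤ) = A i j0 + w i * t j := by
    intro i j
    have e1 := hw i j
    rw [hsing i, Nat.cast_one, mul_one] at e1
    exact e1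
  have : Nonempty (Fin k) := ⟨j0⟩
  obtain ⟨j1, hj1⟩ := Finite.exists_min t
  have hx : ∀ j, (((t j - t j1).toNat : ℕ) : ℤ) = t j - t j1 := fun j =>
    Int.toNat_of_nonneg (by have := hj1 j; linarith)
  have hsw : ∀ j, (∑ i, w i) * t j = 0 := by
    intro j
    have e1 : ((∑ i, A i j : ℕ) : ℤ) = ((∑ i, A i j0 : ℕ) : ℤ) := by rw [hs j j0]
    push_cast at e1
    rw [Finset.sum_congr rfl fun i _ => hw' i j, Finset.sum_add_distrib, ← Finset.sum_mul] at e1
    linarith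
  by_cases hall : ∀ j, t j = t j1
  · refine ⟨fun _ => 0, fun _ => 0, j1, fun i j => ?_, hsum, rfl, by simp⟩
    have e1 := hw' i j
    have e2 := hw' i j1
    rw [hall j] at e1
    rw [e1, ← e2]
    simp
  · push Not at hall
    obtain ⟨j2, hj2⟩ := hall
    have hsw0 : ∑ i, w i = 0 := by
      have e1 := hsw j2
      have e2 := hsw j1
      have e3 : (∑ i, w i) * (t j2 - t j1) = 0 := by
        rw [mul_sub, e1, e2]
        ring
      rcases mul_eq_zero.1 e3 with h | h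
      · exact h
      · exact absurd (by linarith) hj2
    refine ⟨w, fun j => (t j - t j1).toNat, j1, fun i j => ?_, hsum, by simp, hsw0⟩
    rw [hx, hw' i j, hw' i j1]
    ring

/-- transposition of classes -/
theorem Sse.tr {X Y : Σ k : ℕ, Matrix (Fin k) (Fin k) ℕ} (h : Sse X Y) :
    Sse ⟨X.1, X.2.transpose⟩ ⟨Y.1, Y.2.transpose⟩ := by
  have step : ∀ X Y : Σ k : ℕ, Matrix (Fin k) (Fin k) ℕ, Est X Y →
      Est ⟨X.1, X.2.transpose⟩ ⟨Y.1, Y.2.transpose⟩ := by
    rintro X Y ⟨R, S, h1, h2⟩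
    refine ⟨S.transpose, R.transpose, ?_, ?_⟩
    · show X.2.transpose = _
      rw [h1, Matrix.transpose_mul]
    · show Y.2.transpose = _
      rw [h2, Matrix.transpose_mul]
  induction h with
  | single h => exact (step _ _ h).sse
  | tail _ h2 ih => exact ih.trans (step _ _ h2).sse

theorem sse_of_tr (A : Matrix (Fin k) (Fin k) ℕ)
    (h : Sse ⟨k, A.transpose⟩ ⟨1, (Matrix.of (fun _ _ => n) : Matrix (Fin 1) (Fin 1) ℕ)⟩) :
    Sse ⟨k, A⟩ ⟨1, (Matrix.of (fun _ _ => n) : Matrix (Fin 1) (Fin 1) ℕ)⟩ := Sse.tr h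

theorem SE.tr {A : Matrix (Fin k) (Fin k) ℕ} (h : SE A n) : SE A.transpose n := by
  obtain ⟨l, hl, R, S, h1, h2, h3, h4⟩ := h
  have e : (Matrix.of (fun _ _ => n) : Matrix (Fin 1) (Fin 1) ℕ).transpose =
      (Matrix.of (fun _ _ => n) : Matrix (Fin 1) (Fin 1) ℕ) := rfl
  refine ⟨l, hl, S.transpose, R.transpose, ?_, ?_, ?_, ?_⟩
  · rw [← Matrix.transpose_pow, h1, Matrix.transpose_mul]
  · have := congrArg Matrix.transpose h2
    rw [Matrix.transpose_mul, Matrix.transpose_pow, e] at this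
    exact this
  · have := congrArg Matrix.transpose h4
    rw [Matrix.transpose_mul, Matrix.transpose_mul, e] at this
    exact this
  · have := congrArg Matrix.transpose h3
    rw [Matrix.transpose_mul, Matrix.transpose_mul, e] at this
    exact this

theorem rank_tr {A : Matrix (Fin k) (Fin k) ℕ} (h : (A.map (Nat.cast : ℕ → ℚ)).rank ≤ 2) :
    (A.transpose.map (Nat.cast : ℕ → ℚ)).rank ≤ 2 := by
  have e : A.transpose.map (Nat.cast : ℕ → ℚ) = (A.map (Nat.cast : ℕ → ℚ)).transpose := rfl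
  rw [e, Matrix.rank_transpose]
  exact h

end Pool.Agent.WFR
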