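import Pool.Agent.WFS.Two3

/-!
# Rank two: one move along a null vector

`A = A' + w xᵀ` with `x ≥ 0`, `A' w = 0`, `x · w = 0` gives `A ~ A'` in two elementary steps.
-/

set_option autoImplicit false

namespace Pool.Agent.WFR

open Pool.Agent.WFS

variable {k n : ℕ}

/-- THE MOVE -/
theorem uMove (A A' : Matrix (Fin k) (Fin k) ℕ) (w : Fin k → ℤ) (x : Fin k → ℕ)
    (hA : ∀ i j, (A i j : ℤ) = A' i j + w i * x j) (h1 : ∀ i, ∑ j, (A' i j : ℤ) * w j = 0)
    (h2 : ∑ j, (x j : ℤ) * w j = 0) : Sse ⟨k, A⟩ ⟨k, A'⟩ := by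
  classical
  let wp : Fin k → ℕ := fun i => (w i).toNat
  let wm : Fin k → ℕ := fun i => (- w i).toNat
  have hw : ∀ i, w i = (wp i : ℤ) - wm i := by
    intro i
    show w i = ((w i).toNat : ℤ) - ((- w i).toNat : ℤ)
    omega
  have hz : ∀ i, wp i = 0 ∨ wm i = 0 := by
    intro i
    show (w i).toNat = 0 ∨ (- w i).toNat = 0
    omega
  let N : Matrix (Fin k) (Fin k) ℕ := fun i j => A' i j - wm i * x j
  have hle : ∀ i j, wm i * x j ≤ A' i j := by
    intro i j
    rcases hz i with h | h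
    · have h3 := hA i j
      rw [hw i, h] at h3
      have h4 : (0 : ℤ) ≤ A i j := Int.natCast_nonneg _
      have h5 : ((wm i * x j : ℕ) : ℤ) ≤ A' i j := by
        push_cast
        rw [h3] at h4
        push_cast at h4
        linarith
      exact_mod_cast h5
    · rw [h, zero_mul]
      exact Nat.zero_le _
  have hN : ∀ i j, (N i j : ℤ) = A' i j - wm i * x j := by
    intro i j
    show ((A' i j - wm i * x j : ℕ) : ℤ) = _
    rw [Nat.cast_sub (hle i j)]
    push_cast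
    ring
  -- the two factorizations
  let S : Matrix (Fin k ⊕ Unit) (Fin k) ℕ := Matrix.of fun p j => Sum.elim (fun i => N i j) (fun _ => x j) p
  let Rm : (Fin k → ℕ) → Matrix (Fin k) (Fin k ⊕ Unit) ℕ := fun u =>
    Matrix.of fun i p => Sum.elim (fun j => if i = j then 1 else 0) (fun _ => u i) p
  have hRS : ∀ (u : Fin k → ℕ) (i j : Fin k), (Rm u * S) i j = N i j + u i * x j := by
    intro u i j
    rw [Matrix.mul_apply, Fintype.sum_sum_type]
    simp [Rm, S]
  have e1 : A = Rm wp * S := by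
    ext i j
    rw [hRS]
    have h3 := hA i j
    have h4 := hN i j
    have h5 : (A i j : ℤ) = ((N i j + wp i * x j : ℕ) : ℤ) := by
      push_cast
      rw [h4, h3, hw i]
      ring
    exact_mod_cast h5
  have e2 : A' = Rm wm * S := by
    ext i j
    rw [hRS]
    have h4 := hN i j
    have h5 : (A' i j : ℤ) = ((N i j + wm i * x j : ℕ) : ℤ) := by
      push_cast
      rw [h4]
      ring
    exact_mod_cast h5
  have e3 : S * Rm wp = S * Rm wm := by
    ext p q
    rw [Matrix.mul_apply, Matrix.mul_apply]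
    rcases q with q | q
    · rfl
    · have h4 : (∑ i, ((S p i : ℕ) : ℤ) * (wp i : ℤ)) - ∑ i, ((S p i : ℕ) : ℤ) * (wm i : ℤ) = 0 := by
        rw [← Finset.sum_sub_distrib]
        have h5 : ∀ i, ((S p i : ℕ) : ℤ) * (wp i : ℤ) - ((S p i : ℕ) : ℤ) * (wm i : ℤ) =
            ((S p i : ℕ) : ℤ) * w i := by
          intro i
          rw [hw i]
          ring
        rw [Finset.sum_congr rfl fun i _ => h5 i]
        rcases p with p | p
        · have h6 : ∀ i, ((S (Sum.inl p) i : ℕ) : ℤ) * w i = (A' p i : ℤ) * w i -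
              (wm p : ℤ) * ((x i : ℤ) * w i) := by
            intro i
            have h7 : ((S (Sum.inl p) i : ℕ) : ℤ) = (N p i : ℤ) := rfl
            rw [h7, hN]
            ring
          rw [Finset.sum_congr rfl fun i _ => h6 i, Finset.sum_sub_distrib, h1 p,
            ← Finset.mul_sum, h2]
          ring
        · exact h2
      have h8 : ((∑ i, S p i * wp i : ℕ) : ℤ) = ((∑ i, S p i * wm i : ℕ) : ℤ) := by
        push_cast
        linarith
      exact_mod_cast h8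
  have s1 : Sse (toFin A) (toFin (S * Rm wp)) := (est_toFin (Rm wp) S e1 rfl).sse
  have s2 : Sse (toFin A') (toFin (S * Rm wm)) := (est_toFin (Rm wm) S e2 rfl).sse
  rw [← e3] at s2
  exact (sse_toFin_fin A).trans (s1.trans (s2.symm.trans (sse_toFin_fin A').symm))

/-- rank one -/
theorem rankOne (a c : Fin k → ℕ) (h : ∑ i, c i * a i = n) :
    Sse ⟨k, Matrix.of fun i j => a i * c j⟩
      ⟨1, (Matrix.of (fun _ _ => n) : Matrix (Fin 1) (Fin 1) ℕ)⟩ := by
  refine Est.sse ⟨Matrix.of fun i _ => a i, Matrix.of fun _ j => c j, ?_, ?_⟩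
  · ext i j
    rw [Matrix.mul_apply, Fin.sum_univ_one]
    rfl
  · ext i j
    show n = _
    rw [Matrix.mul_apply]
    exact h.symm

/-- shift equivalence to `(n)`, as in the frozen statement -/
def SE (A : Matrix (Fin k) (Fin k) ℕ) (n : ℕ) : Prop :=
  ∃ ℓ : ℕ, 1 ≤ ℓ ∧ ∃ R : Matrix (Fin k) (Fin 1) ℕ, ∃ S : Matrix (Fin 1) (Fin k) ℕ,
    A ^ ℓ = R * S ∧
    (Matrix.of (fun _ _ => n) : Matrix (Fin 1) (Fin 1) ℕ) ^ ℓ = S * R ∧
    A * R = R * (Matrix.of (fun _ _ => n) : Matrix (Fin 1) (Fin 1) ℕ) ∧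
    S * A = (Matrix.of (fun _ _ => n) : Matrix (Fin 1) (Fin 1) ℕ) * S

/-- an eigenvector `w` with `c w = 0`, where `c` is a left eigenvector for `n`, has eigenvalue `0` -/
theorem null_of_se (hn : 1 ≤ n) (A : Matrix (Fin k) (Fin k) ℕ) (hse : SE A n) (c : Fin k → ℕ)
    (hc0 : c ≠ 0) (hc : ∀ j, ∑ i, c i * A i j = n * c j) (w : Fin k → ℤ) (μ : ℤ)
    (hw0 : w ≠ 0) (hw : ∀ i, ∑ j, (A i j : ℤ) * w j = μ * w i)
    (hcw : ∑ i, (c i : ℤ) * w i = 0) : μ = 0 := by
  obtain ⟨l, -, R, S, hRS, -, -, -⟩ := hse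
  let Az : Matrix (Fin k) (Fin k) ℤ := (Nat.castRingHom ℤ).mapMatrix A
  have hAz : ∀ m, Az ^ m = (Nat.castRingHom ℤ).mapMatrix (A ^ m) := fun m => (map_pow _ _ _).symm
  have hAe : ∀ i j, Az i j = (A i j : ℤ) := fun _ _ => rfl
  have p1 : ∀ m, (Az ^ m).mulVec w = μ ^ m • w := by
    intro m
    induction m with
    | zero => simp
    | succ m ih =>
      have h1 : Az.mulVec w = μ • w := by
        funext i
        show ∑ j, Az i j * w j = μ * w i
        exact hw i
      rw [pow_succ, ← Matrix.mulVec_mulVec, h1, Matrix.mulVec_smul, ih, smul_smul, pow_succ,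
        mul_comm]
  have p2 : ∀ m, Matrix.vecMul (fun i => (c i : ℤ)) (Az ^ m) = (n : ℤ) ^ m • fun i => (c i : ℤ) := by
    intro m
    induction m with
    | zero => simp
    | succ m ih =>
      have h1 : Matrix.vecMul (fun i => (c i : ℤ)) Az = (n : ℤ) • fun i => (c i : ℤ) := by
        funext j
        show ∑ i, (c i : ℤ) * Az i j = (n : ℤ) * c j
        have h2 := hc j
        have h3 : ((∑ i, c i * A i j : ℕ) : ℤ) = ((n * c j : ℕ) : ℤ) := by rw [h2]
        push_cast at h3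
        exact h3
      rw [pow_succ', ← Matrix.vecMul_vecMul, h1, Matrix.smul_vecMul, ih, smul_smul, pow_succ']
  by_contra hμ
  obtain ⟨s, hs⟩ : ∃ s, s = ∑ j, (S 0 j : ℤ) * w j := ⟨_, rfl⟩
  obtain ⟨t, ht⟩ : ∃ t, t = ∑ i, (c i : ℤ) * R i 0 := ⟨_, rfl⟩
  have hent : ∀ i j, (Az ^ l) i j = (R i 0 : ℤ) * S 0 j := by
    intro i j
    rw [hAz, hRS]
    show (((R * S) i j : ℕ) : ℤ) = _
    rw [Matrix.mul_apply, Fin.sum_univ_one]
    push_cast
    ring
  have q1 : ∀ i, μ ^ l * w i = R i 0 * s := by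
    intro i
    have h1 := congrFun (p1 l) i
    have h2 : ∑ j, (Az ^ l) i j * w j = μ ^ l * w i := h1
    rw [← h2, hs, Finset.mul_sum]
    refine Finset.sum_congr rfl fun j _ => ?_
    rw [hent]
    ring
  have q2 : ∀ j, (n : ℤ) ^ l * c j = t * S 0 j := by
    intro j
    have h1 := congrFun (p2 l) j
    have h2 : ∑ i, (c i : ℤ) * (Az ^ l) i j = (n : ℤ) ^ l * c j := h1
    rw [← h2, ht, Finset.sum_mul]
    refine Finset.sum_congr rfl fun i _ => ?_
    rw [hent]
    ring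
  have ht0 : t ≠ 0 := by
    intro h0
    apply hc0
    funext j
    have h1 := q2 j
    rw [h0, zero_mul] at h1
    have h2 : ((n : ℤ) ^ l) ≠ 0 := pow_ne_zero _ (by exact_mod_cast (by omega : n ≠ 0))
    rcases mul_eq_zero.1 h1 with h3 | h3
    · exact absurd h3 h2
    · exact_mod_cast h3
  have hs0 : s = 0 := by
    have h1 : t * s = 0 := by
      have h2 : t * s = ∑ i, (c i : ℤ) * (R i 0 * s) := by
        rw [ht, Finset.sum_mul]
        exact Finset.sum_congr rfl fun i _ => by ring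
      rw [h2]
      have h3 : ∑ i, (c i : ℤ) * (R i 0 * s) = μ ^ l * ∑ i, (c i : ℤ) * w i := by
        rw [Finset.mul_sum]
        refine Finset.sum_congr rfl fun i _ => ?_
        rw [← q1 i]
        ring
      rw [h3, hcw, mul_zero]
    rcases mul_eq_zero.1 h1 with h | h
    · exact absurd h ht0
    · exact h
  apply hw0
  funext i
  have h1 := q1 i
  rw [hs0, mul_zero] at h1
  rcases mul_eq_zero.1 h1 with h | h
  · exact absurd h (pow_ne_zero _ hμ)
  · exact h

/-- CORE: `A = a cᵀ + w xᵀ`, `c a = n`, `c w = 0`, `a, c, x ≥ 0` -/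
theorem core (hn : 1 ≤ n) (A : Matrix (Fin k) (Fin k) ℕ) (hse : SE A n) (a c x : Fin k → ℕ)
    (w : Fin k → ℤ) (hA : ∀ i j, (A i j : ℤ) = a i * c j + w i * x j)
    (hca : ∑ i, c i * a i = n) (hcw : ∑ i, (c i : ℤ) * w i = 0) :
    Sse ⟨k, A⟩ ⟨1, (Matrix.of (fun _ _ => n) : Matrix (Fin 1) (Fin 1) ℕ)⟩ := by
  have hc : ∀ j, ∑ i, c i * A i j = n * c j := by
    intro j
    have h1 : ((∑ i, c i * A i j : ℕ) : ℤ) = ((n * c j : ℕ) : ℤ) := by
      push_cast
      have h2 : ∀ i, (c i : ℤ) * A i j = ((c i : ℤ) * a i) * c j + ((c i : ℤ) * w i) * x j := by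
        intro i
        rw [hA i j]
        ring
      rw [Finset.sum_congr rfl fun i _ => h2 i, Finset.sum_add_distrib, ← Finset.sum_mul,
        ← Finset.sum_mul, hcw, zero_mul, add_zero]
      have h3 : ((∑ i, c i * a i : ℕ) : ℤ) = n := by rw [hca]
      push_cast at h3
      rw [h3]
    exact_mod_cast h1
  have hc0 : c ≠ 0 := by
    intro h0
    rw [h0] at hca
    simp at hca
    omega
  have hxw : ∑ j, (x j : ℤ) * w j = 0 := by
    by_cases hw0 : w = 0
    · simp [hw0]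
    · refine null_of_se hn A hse c hc0 hc w _ hw0 (fun i => ?_) hcw
      have h2 : ∀ j, (A i j : ℤ) * w j = (a i : ℤ) * ((c j : ℤ) * w j) + w i * ((x j : ℤ) * w j) := by
        intro j
        rw [hA i j]
        ring
      rw [Finset.sum_congr rfl fun j _ => h2 j, Finset.sum_add_distrib, ← Finset.mul_sum,
        ← Finset.mul_sum, hcw]
      ring
  refine (uMove A (Matrix.of fun i j => a i * c j) w x ?_ ?_ hxw).trans (rankOne a c hca)
  · intro i j
    rw [hA i j]
    show _ = ((a i * c j : ℕ) : ℤ) + _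
    push_cast
    ring
  · intro i
    have h2 : ∀ j, (((Matrix.of fun i j => a i * c j : Matrix (Fin k) (Fin k) ℕ) i j : ℕ) : ℤ) * w j =
        (a i : ℤ) * ((c j : ℤ) * w j) := by
      intro j
      show ((a i * c j : ℕ) : ℤ) * w j = _
      push_cast
      ring
    rw [Finset.sum_congr rfl fun j _ => h2 j, ← Finset.mul_sum, hcw, mul_zero]

/-- vectors of `ℤ²` orthogonal to a nonzero vector -/
theorem orth2 (p q : ℤ) (h : p ≠ 0 ∨ q ≠ 0) : ∃ u v : ℤ, ∀ d e : ℤ, d * p + e * q = 0 →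
    ∃ t, d = t * u ∧ e = t * v := by
  have hg : 0 < Int.gcd p q := Int.gcd_pos_iff.2 h
  obtain ⟨p', q', hco, hp, hq⟩ := Int.exists_gcd_one hg
  refine ⟨q', - p', fun d e hde => ?_⟩
  have hg' : ((Int.gcd p q : ℕ) : ℤ) ≠ 0 := by exact_mod_cast hg.ne'
  have h1 : d * p' + e * q' = 0 := by
    have h2 : (d * p' + e * q') * (Int.gcd p q : ℤ) = 0 := by
      calc (d * p' + e * q') * (Int.gcd p q : ℤ) = d * (p' * (Int.gcd p q : ℤ)) +
          e * (q' * (Int.gcd p q : ℤ)) := by ring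
        _ = d * p + e * q := by rw [← hp, ← hq]
        _ = 0 := hde
    rcases mul_eq_zero.1 h2 with h3 | h3
    · exact h3
    · exact absurd h3 hg'
  obtain ⟨a, b, hab⟩ := Int.isCoprime_iff_gcd_eq_one.2 hco
  -- a * p' + b * q' = 1
  refine ⟨d * b - e * a, ?_, ?_⟩
  · have : (d * b - e * a) * q' = d * (a * p' + b * q') - a * (d * p' + e * q') := by ring
    rw [this, hab, h1]
    ring
  · have : (d * b - e * a) * (- p') = e * (a * p' + b * q') - b * (d * p' + e * q') := by ring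
    rw [this, hab, h1]
    ring

/-- the columns minus their `c`-multiples of `a = A v` are multiples of one vector -/
theorem fac_line {A : Matrix (Fin k) (Fin k) ℕ} (hn : 1 ≤ n)
    (hr : (A.map (Nat.cast : ℕ → ℚ)).rank ≤ 2) (c : Fin k → ℕ)
    (hc : ∀ j, ∑ i, c i * A i j = n * c j) (v : Fin k → ℤ) (hv : ∑ j, (c j : ℤ) * v j = 1) :
    ∃ (w : Fin k → ℤ) (t : Fin k → ℤ), ∀ i j,
      (A i j : ℤ) = (∑ l, (A i l : ℤ) * v l) * c j + w i * t j := by
  obtain ⟨L, m, s, p, hF⟩ := fac_of_rank A hr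
  obtain ⟨g0, hg0⟩ : ∃ g0, g0 = ∑ i, (c i : ℤ) * L i := ⟨_, rfl⟩
  obtain ⟨g1, hg1⟩ : ∃ g1, g1 = ∑ i, (c i : ℤ) * m i := ⟨_, rfl⟩
  obtain ⟨s0, hs0⟩ : ∃ s0, s0 = ∑ l, s l * v l := ⟨_, rfl⟩
  obtain ⟨p0, hp0⟩ : ∃ p0, p0 = ∑ l, p l * v l := ⟨_, rfl⟩
  have hcj : ∀ j, g0 * s j + g1 * p j = n * c j := by
    intro j
    have h1 : ((∑ i, c i * A i j : ℕ) : ℤ) = ((n * c j : ℕ) : ℤ) := by rw [hc j]
    push_cast at h1
    rw [← h1, hg0, hg1, Finset.sum_mul, Finset.sum_mul, ← Finset.sum_add_distrib]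
    refine Finset.sum_congr rfl fun i _ => ?_
    rw [hF i j]
    ring
  have hnv : g0 * s0 + g1 * p0 = n := by
    have h1 : g0 * s0 + g1 * p0 = ∑ j, (g0 * s j + g1 * p j) * v j := by
      rw [hs0, hp0, Finset.mul_sum, Finset.mul_sum, ← Finset.sum_add_distrib]
      exact Finset.sum_congr rfl fun j _ => by ring
    rw [h1]
    have h2 : ∀ j, (g0 * s j + g1 * p j) * v j = n * ((c j : ℤ) * v j) := by
      intro j
      rw [hcj j]
      ring
    rw [Finset.sum_congr rfl fun j _ => h2 j, ← Finset.mul_sum, hv, mul_one]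
  have hne : g0 ≠ 0 ∨ g1 ≠ 0 := by
    by_contra hcon
    push Not at hcon
    rw [hcon.1, hcon.2] at hnv
    simp at hnv
    omega
  obtain ⟨u, z, huz⟩ := orth2 g0 g1 hne
  have hd : ∀ j, ∃ t, s j - c j * s0 = t * u ∧ p j - c j * p0 = t * z := by
    intro j
    refine huz _ _ ?_
    have h1 := hcj j
    have h2 : (s j - c j * s0) * g0 + (p j - c j * p0) * g1 =
        (g0 * s j + g1 * p j) - c j * (g0 * s0 + g1 * p0) := by ring
    rw [h2, h1, hnv]
    ring
  choose t ht1 ht2 using hd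
  refine ⟨fun i => L i * u + m i * z, t, fun i j => ?_⟩
  have h3 : ∑ l, (A i l : ℤ) * v l = L i * s0 + m i * p0 := by
    rw [hs0, hp0, Finset.mul_sum, Finset.mul_sum, ← Finset.sum_add_distrib]
    refine Finset.sum_congr rfl fun l _ => ?_
    rw [hF i l]
    ring
  rw [h3, hF i j]
  have h1 := ht1 j
  have h2 := ht2 j
  have h4 : s j = c j * s0 + t j * u := by linarith
  have h5 : p j = c j * p0 + t j * z := by linarith
  rw [h4, h5]
  ring

end Pool.Agent.WFR
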